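import Mathlib

set_option autoImplicit false

namespace Pool.Agent.MP_741a63_co

open Finset

variable {α : Type*} [DecidableEq α]

/-- The fourth point of the block through three distinct points. -/
theorem exists_fourth (B : Finset (Finset α)) (h4 : ∀ b ∈ B, b.card = 4)
    (h3 : ∀ T : Finset α, T.card = 3 → ∃! b, b ∈ B ∧ T ⊆ b)
    (x y z : α) (hxy : x ≠ y) (hxz : x ≠ z) (hyz : y ≠ z) :
    ∃ w, w ≠ x ∧ w ≠ y ∧ w ≠ z ∧ ({w, x, y, z} : Finset α) ∈ B := by
  have hT : ({x, y, z} : Finset α).card = 3 := card_eq_three.2 ⟨x, y, z, hxy, hxz, hyz, rfl⟩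
  obtain ⟨b, ⟨hb, hTb⟩, -⟩ := h3 _ hT
  have hlt : ({x, y, z} : Finset α).card < b.card := by rw [hT, h4 b hb]; norm_num
  obtain ⟨w, hwb, hwT⟩ := exists_mem_notMem_of_card_lt_card hlt
  have hw : w ≠ x ∧ w ≠ y ∧ w ≠ z := by simpa [not_or] using hwT
  refine ⟨w, hw.1, hw.2.1, hw.2.2, ?_⟩
  have hsub : ({w, x, y, z} : Finset α) ⊆ b := insert_subset hwb hTb
  have hc : ({w, x, y, z} : Finset α).card = 4 := by
    rw [card_insert_of_notMem hwT, hT]
  have : ({w, x, y, z} : Finset α) = b := eq_of_subset_of_card_le hsub (by rw [hc, h4 b hb])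
  rwa [this]

theorem fourth_unique (B : Finset (Finset α))
    (h3 : ∀ T : Finset α, T.card = 3 → ∃! b, b ∈ B ∧ T ⊆ b)
    (x y w z z' : α) (hxy : x ≠ y) (hwx : w ≠ x) (hwy : w ≠ y)
    (hzx : x ≠ z) (hzy : y ≠ z) (hzw : w ≠ z)
    (hb : ({w, x, y, z} : Finset α) ∈ B) (hb' : ({w, x, y, z'} : Finset α) ∈ B) : z = z' := by
  have hT : ({w, x, y} : Finset α).card = 3 := card_eq_three.2 ⟨w, x, y, hwx, hwy, hxy, rfl⟩
  obtain ⟨b, -, huniq⟩ := h3 _ hT
  have e1 := huniq _ ⟨hb, by intro a; simp only [mem_insert, mem_singleton]; tauto⟩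
  have e2 := huniq _ ⟨hb', by intro a; simp only [mem_insert, mem_singleton]; tauto⟩
  have hz : z ∈ ({w, x, y, z'} : Finset α) := by rw [e2, ← e1]; simp
  simp only [mem_insert, mem_singleton] at hz
  rcases hz with h | h | h | h
  · exact absurd h.symm hzw
  · exact absurd h.symm hzx
  · exact absurd h.symm hzy
  · exact h

/-- The counting inequality in the system derived at the point `x`. -/
theorem count_ineq [Fintype α] (B : Finset (Finset α)) (h4 : ∀ b ∈ B, b.card = 4)
    (h3 : ∀ T : Finset α, T.card = 3 → ∃! b, b ∈ B ∧ T ⊆ b)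
    {γ : Type*} [DecidableEq γ] (c : α → γ)
    (hc : ∀ b ∈ B, ∃ x ∈ b, ∃ y ∈ b, x ≠ y ∧ c x = c y)
    (x : α) (U : Finset α) (hUx : ∀ y ∈ U, c y ≠ c x)
    (hU : ∀ y ∈ U, ∀ w, c w = c y → w ∈ U) :
    U.card ^ 2 + 3 * U.card ≤
      3 * ((U ×ˢ U).filter (fun p => c p.1 = c p.2)).card
        + (univ.filter (fun w => c w = c x)).card * U.card := by
  classical
  set E := (U ×ˢ U).filter (fun p => c p.1 = c p.2) with hE
  set P := (U ×ˢ U).filter (fun p => ¬ c p.1 = c p.2) with hP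
  set E' := E.filter (fun p => p.1 ≠ p.2) with hE'
  set A := univ.filter (fun w => c w = c x) with hA
  have hEP : E.card + P.card = U.card ^ 2 := by
    rw [hE, hP, card_filter_add_card_filter_not, card_product, sq]
  have hEE : E'.card + U.card = E.card := by
    have h1 : (E.filter (fun p => ¬ p.1 ≠ p.2)).card = U.card := by
      symm
      apply card_bij (fun y _ => (y, y))
      · intro y hy; simp [hE, hy]
      · intro a _ b _ h; exact (Prod.ext_iff.1 h).1
      · rintro ⟨a, b⟩ h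
        simp only [hE, mem_filter, mem_product, ne_eq, not_not] at h
        exact ⟨a, h.1.1.1, by rw [← h.2]⟩
    rw [← h1, hE', card_filter_add_card_filter_not]
  have hxA : x ∈ A := by simp [hA]
  have hA1 : (A.erase x).card + 1 = A.card := card_erase_add_one hxA
  have hex : ∀ p : α × α, ∃ w, p ∈ P →
      (w ≠ x ∧ w ≠ p.1 ∧ w ≠ p.2 ∧ ({w, x, p.1, p.2} : Finset α) ∈ B) := by
    rintro ⟨y, z⟩
    by_cases hp : (y, z) ∈ P
    · have hp' := hp
      simp only [hP, mem_filter, mem_product] at hp'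
      obtain ⟨⟨hy, hz⟩, hyz⟩ := hp'
      obtain ⟨w, hw⟩ := exists_fourth B h4 h3 x y z
        (fun h => hUx y hy (by rw [h])) (fun h => hUx z hz (by rw [h])) (fun h => hyz (by rw [h]))
      exact ⟨w, fun _ => hw⟩
    · exact ⟨x, fun h => absurd h hp⟩
  choose f hf using hex
  have hPfacts : ∀ p ∈ P, p.1 ∈ U ∧ p.2 ∈ U ∧ c p.1 ≠ c p.2 ∧ x ≠ p.1 ∧ x ≠ p.2 ∧ p.1 ≠ p.2 := by
    rintro ⟨y, z⟩ hp
    simp only [hP, mem_filter, mem_product] at hp
    obtain ⟨⟨hy, hz⟩, hyz⟩ := hp
    exact ⟨hy, hz, hyz, fun h => hUx y hy (by rw [h]), fun h => hUx z hz (by rw [h]),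
      fun h => hyz (congrArg c h)⟩
  have hcol : ∀ p ∈ P, c (f p) = c p.1 ∨ c (f p) = c p.2 ∨ c (f p) = c x := by
    intro p hp
    obtain ⟨hy, hz, hyz, -⟩ := hPfacts p hp
    obtain ⟨-, -, -, hb⟩ := hf p hp
    obtain ⟨a, ha, b, hb', hab, hcab⟩ := hc _ hb
    have h1 := hUx _ hy
    have h2 := hUx _ hz
    simp only [mem_insert, mem_singleton] at ha hb'
    rcases ha with rfl | rfl | rfl | rfl <;> rcases hb' with rfl | rfl | rfl | rfl <;>
      first
        | exact absurd rfl hab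
        | exact absurd hcab h1 | exact absurd hcab h2 | exact absurd hcab hyz
        | exact absurd hcab.symm h1 | exact absurd hcab.symm h2 | exact absurd hcab.symm hyz
        | exact Or.inl hcab | exact Or.inl hcab.symm
        | exact Or.inr (Or.inl hcab) | exact Or.inr (Or.inl hcab.symm)
        | exact Or.inr (Or.inr hcab) | exact Or.inr (Or.inr hcab.symm)
  have hinj1 : ∀ p ∈ P, ∀ q ∈ P, p.1 = q.1 → f p = f q → p = q := by
    intro p hp q hq h1 h2
    obtain ⟨-, -, -, a1, a2, a3⟩ := hPfacts p hp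
    obtain ⟨b1, b2, b3, hb⟩ := hf p hp
    obtain ⟨-, -, -, hb'⟩ := hf q hq
    rw [← h1, ← h2] at hb'
    exact Prod.ext h1 (fourth_unique B h3 x p.1 (f p) p.2 q.2 a1 b1 b2 a2 a3 b3 hb hb')
  have hinj2 : ∀ p ∈ P, ∀ q ∈ P, p.2 = q.2 → f p = f q → p = q := by
    intro p hp q hq h1 h2
    obtain ⟨-, -, -, a1, a2, a3⟩ := hPfacts p hp
    obtain ⟨b1, b2, b3, hb⟩ := hf p hp
    obtain ⟨-, -, -, hb'⟩ := hf q hq
    rw [← h1, ← h2, pair_comm] at hb'
    rw [pair_comm] at hb
    exact Prod.ext (fourth_unique B h3 x p.2 (f p) p.1 q.1 a2 b1 b3 a1 a3.symm b2 hb hb') h1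
  have c1 : (P.filter (fun p => c (f p) = c p.1)).card ≤ E'.card := by
    apply card_le_card_of_injOn (fun p => (p.1, f p))
    · intro p hp
      simp only [coe_filter, Set.mem_ofPred_eq] at hp
      obtain ⟨hy, -⟩ := hPfacts p hp.1
      obtain ⟨-, b2, -⟩ := hf p hp.1
      simp only [hE', hE, coe_filter, mem_filter, mem_product, Set.mem_ofPred_eq]
      exact ⟨⟨⟨hy, hU _ hy _ hp.2⟩, hp.2.symm⟩, b2.symm⟩
    · intro p hp q hq h
      simp only [coe_filter, Set.mem_ofPred_eq] at hp hq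
      exact hinj1 p hp.1 q hq.1 (Prod.ext_iff.1 h).1 (Prod.ext_iff.1 h).2
  have c2 : (P.filter (fun p => c (f p) = c p.2)).card ≤ E'.card := by
    apply card_le_card_of_injOn (fun p => (p.2, f p))
    · intro p hp
      simp only [coe_filter, Set.mem_ofPred_eq] at hp
      obtain ⟨-, hz, -⟩ := hPfacts p hp.1
      obtain ⟨-, -, b3, -⟩ := hf p hp.1
      simp only [hE', hE, coe_filter, mem_filter, mem_product, Set.mem_ofPred_eq]
      exact ⟨⟨⟨hz, hU _ hz _ hp.2⟩, hp.2.symm⟩, b3.symm⟩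
    · intro p hp q hq h
      simp only [coe_filter, Set.mem_ofPred_eq] at hp hq
      exact hinj2 p hp.1 q hq.1 (Prod.ext_iff.1 h).1 (Prod.ext_iff.1 h).2
  have c3 : (P.filter (fun p => c (f p) = c x)).card ≤ U.card * (A.erase x).card := by
    rw [← card_product]
    apply card_le_card_of_injOn (fun p => (p.1, f p))
    · intro p hp
      simp only [coe_filter, Set.mem_ofPred_eq] at hp
      obtain ⟨hy, -⟩ := hPfacts p hp.1
      obtain ⟨b1, -⟩ := hf p hp.1
      simp only [coe_product, Set.mem_prod, mem_coe, mem_erase, hA, mem_filter, mem_univ, true_and]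
      exact ⟨hy, b1, hp.2⟩
    · intro p hp q hq h
      simp only [coe_filter, Set.mem_ofPred_eq] at hp hq
      exact hinj1 p hp.1 q hq.1 (Prod.ext_iff.1 h).1 (Prod.ext_iff.1 h).2
  have hcover : P.card ≤ (P.filter (fun p => c (f p) = c p.1)).card
      + (P.filter (fun p => c (f p) = c p.2)).card + (P.filter (fun p => c (f p) = c x)).card := by
    refine le_trans (card_le_card (t := (P.filter (fun p => c (f p) = c p.1)
      ∪ P.filter (fun p => c (f p) = c p.2)) ∪ P.filter (fun p => c (f p) = c x)) ?_) ?_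
    · intro p hp
      simp only [mem_union, mem_filter]
      have := hcol p hp
      tauto
    · exact le_trans (card_union_le _ _) (Nat.add_le_add_right (card_union_le _ _) _)
  rw [← hEP, ← hA1, ← hEE]
  nlinarith

end Pool.Agent.MP_741a63_co
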