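import Mathlib

set_option autoImplicit false

namespace Pool.Agent.MP_741a63_co

open Finset

/-- Invariant carried along the sorted list of class sizes. -/
def Inv (b : ℕ → ℝ) (ν : ℝ) (p : ℕ) (l : ℝ) : Prop :=
  ∃ A A2 D : ℝ, 0 ≤ D ∧ ∑ j ∈ range p, b j = A + D ∧
    ∑ j ∈ range p, b j ^ 2 ≤ A2 + D * (b p + l) ∧ l ≤ b p ∧ 0 ≤ A - ν / 2 - l ∧
    3 * A2 - A ^ 2 + ν * A ≤ 6 * (A - ν / 2 - l) * l ∧
    3 * A2 - A ^ 2 + ν * A < 4 * (A - ν / 2 - l) * l + 2 * l ^ 2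

theorem inv_step (b : ℕ → ℝ) (ν : ℝ) (p : ℕ) (l : ℝ) (hl : 0 < l) (hmono : b p ≤ b (p + 1))
    (H : (∑ j ∈ range (p + 2), b j) ^ 2 ≤
      3 * ∑ j ∈ range (p + 2), b j ^ 2 + ν * ∑ j ∈ range (p + 2), b j)
    (h : Inv b ν p l) : Inv b ν (p + 1) (2 * l) := by
  obtain ⟨A, A2, D, hD, hS, hQ, hu, hd, hF1, hF2⟩ := h
  rw [sum_range_succ, sum_range_succ, sum_range_succ, sum_range_succ, hS] at H
  set u := b p with hu'
  set t := b (p + 1) with ht'
  set Q := ∑ j ∈ range p, b j ^ 2 with hQ'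
  obtain ⟨d, hdd⟩ : ∃ d, d = A - ν / 2 - l := ⟨_, rfl⟩
  obtain ⟨F, hFF⟩ : ∃ F, F = 3 * A2 - A ^ 2 + ν * A := ⟨_, rfl⟩
  rw [← hdd] at hd hF1 hF2
  rw [← hFF] at hF1 hF2
  have hν : ν = 2 * (A - l - d) := by rw [hdd]; ring
  have ht : 2 * l ≤ t := by
    by_contra hlt
    push Not at hlt
    have h1 : D * (u - 2 * t + l - 2 * d) ≤ 0 :=
      mul_nonpos_of_nonneg_of_nonpos hD (by linarith)
    have h2 : (u - l) * (u - t) ≤ 0 :=
      mul_nonpos_of_nonneg_of_nonpos (by linarith) (by linarith)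
    have h3 : d * l ≤ d * u := mul_le_mul_of_nonneg_left hu hd
    have h4 : 0 ≤ F - 2 * d * l - 2 * d * t + 2 * t * (t - 2 * l) := by
      have hD2 : 0 ≤ D ^ 2 := sq_nonneg D
      rw [hFF]
      rw [hν] at H ⊢
      nlinarith
    have h5 : (2 * l - t) * (F - 4 * d * l - 2 * l ^ 2) < 0 :=
      mul_neg_of_pos_of_neg (by linarith) (by linarith)
    have h6 : (t - l) * (F - 6 * d * l) ≤ 0 :=
      mul_nonpos_of_nonneg_of_nonpos (by linarith) (by linarith)
    have h7 : l * ((t - l) * (t - 2 * l)) ≤ 0 :=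
      mul_nonpos_of_nonneg_of_nonpos hl.le
        (mul_nonpos_of_nonneg_of_nonpos (by linarith) (by linarith))
    have h8 : 0 ≤ l * (F - 2 * d * l - 2 * d * t + 2 * t * (t - 2 * l)) := mul_nonneg hl.le h4
    nlinarith
  have hdl : 0 ≤ d * l := mul_nonneg hd hl.le
  refine ⟨A + l, A2 + l ^ 2, D + (u - l), by linarith, ?_, ?_, ht, ?_, ?_, ?_⟩
  · rw [sum_range_succ, hS]; ring
  · rw [sum_range_succ]
    have h1 : (D + (u - l)) * (u + l) ≤ (D + (u - l)) * (t + 2 * l) :=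
      mul_le_mul_of_nonneg_left (by linarith) (by linarith)
    nlinarith
  · linarith
  · have e1 : A + l - ν / 2 - 2 * l = d := by rw [hdd]; ring
    have e2 : 3 * (A2 + l ^ 2) - (A + l) ^ 2 + ν * (A + l) = F - 2 * d * l := by
      rw [hFF, hν]; ring
    rw [e1, e2]; nlinarith
  · have e1 : A + l - ν / 2 - 2 * l = d := by rw [hdd]; ring
    have e2 : 3 * (A2 + l ^ 2) - (A + l) ^ 2 + ν * (A + l) = F - 2 * d * l := by
      rw [hFF, hν]; ring
    rw [e1, e2]; nlinarith [sq_pos_of_pos hl]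

theorem inv_iter (b : ℕ → ℝ) (ν : ℝ) (n p : ℕ) (l : ℝ) (hl : 0 < l)
    (hmono : ∀ i, i + 1 < n → b i ≤ b (i + 1))
    (H : ∀ m ≤ n, (∑ j ∈ range m, b j) ^ 2 ≤
      3 * ∑ j ∈ range m, b j ^ 2 + ν * ∑ j ∈ range m, b j)
    (h : Inv b ν p l) (i : ℕ) (hi : p + i < n) : Inv b ν (p + i) (2 ^ i * l) := by
  induction i with
  | zero => simpa using h
  | succ i ih =>
    have := inv_step b ν (p + i) (2 ^ i * l) (by positivity) (hmono _ (by omega))
      (H _ (by omega)) (ih (by omega))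
    rw [show (2 : ℝ) ^ (i + 1) * l = 2 * (2 ^ i * l) by ring]
    exact this

theorem inv_final (b : ℕ → ℝ) (μ : ℝ) (hμ : 1 ≤ μ) (n p : ℕ) (l : ℝ) (hl : (2 : ℝ) ^ p ≤ l)
    (hmono : ∀ i, i + 1 < n → b i ≤ b (i + 1))
    (H : ∀ m ≤ n, (∑ j ∈ range m, b j) ^ 2 ≤
      3 * ∑ j ∈ range m, b j ^ 2 + (μ - 3) * ∑ j ∈ range m, b j)
    (h : Inv b (μ - 3) p l) (hp : p < n) : (2 : ℝ) ^ n ≤ μ + ∑ j ∈ range n, b j := by
  obtain ⟨i, rfl⟩ : ∃ i, n = p + i + 1 := ⟨n - p - 1, by omega⟩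
  have hl0 : 0 < l := lt_of_lt_of_le (by positivity) hl
  obtain ⟨A, A2, D, hD, hS, -, hu, hd, -, -⟩ :=
    inv_iter b (μ - 3) (p + i + 1) p l hl0 hmono H h i (by omega)
  rw [sum_range_succ, hS]
  have h1 : (2 : ℝ) ^ i * 2 ^ p ≤ 2 ^ i * l := mul_le_mul_of_nonneg_left hl (by positivity)
  have h2 : (2 : ℝ) ^ (p + i + 1) = 2 * (2 ^ i * 2 ^ p) := by ring
  rw [h2]
  linarith

/-- The key growth lemma. -/
theorem growth (b : ℕ → ℝ) (μ : ℕ) (hμ : 1 ≤ μ) (n : ℕ)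
    (h0 : 0 < n → (μ : ℝ) ≤ b 0)
    (hmono : ∀ i, i + 1 < n → b i ≤ b (i + 1))
    (H : ∀ m ≤ n, (∑ j ∈ range m, b j) ^ 2 ≤
      3 * ∑ j ∈ range m, b j ^ 2 + ((μ : ℝ) - 3) * ∑ j ∈ range m, b j) :
    (2 : ℝ) ^ n ≤ μ + ∑ j ∈ range n, b j := by
  have hμ' : (1 : ℝ) ≤ μ := by exact_mod_cast hμ
  rcases Nat.eq_zero_or_pos n with rfl | hn
  · simpa using hμ'
  have hb0 := h0 hn
  rcases (show μ = 1 ∨ μ = 2 ∨ 3 ≤ μ by omega) with rfl | rfl | h3
  · refine inv_final b _ hμ' n 0 1 (by norm_num) hmono H ?_ hn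
    refine ⟨0, 0, 0, le_rfl, by simp, by simp, by simpa using hb0, ?_, ?_, ?_⟩ <;> norm_num
  · rcases (show n = 1 ∨ 1 < n by omega) with rfl | hn1
    · simp at hb0 ⊢; linarith
    have hb1 := hmono 0 (by omega)
    norm_num at hb0 hb1
    refine inv_final b _ hμ' n 1 2 (by norm_num) hmono H ?_ hn1
    refine ⟨2, 4, b 0 - 2, by linarith, by simp, ?_, by linarith, ?_, ?_, ?_⟩
    · simp; nlinarith
    all_goals norm_num
  · have h3' : (3 : ℝ) ≤ μ := by exact_mod_cast h3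
    rcases (show n = 1 ∨ n = 2 ∨ n = 3 ∨ 3 < n by omega) with rfl | rfl | rfl | hn3
    · simp; linarith
    · have hb1 := hmono 0 (by omega)
      simp [sum_range_succ] at hb1 ⊢; linarith
    · have hb1 := hmono 0 (by omega)
      have hb2 := hmono 1 (by omega)
      simp [sum_range_succ] at hb1 hb2 ⊢; linarith
    have hb1 := hmono 0 (by omega)
    have hb2 := hmono 1 (by omega)
    have hb3 := hmono 2 (by omega)
    norm_num at hb1 hb2 hb3
    have H4 := H 4 (by omega)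
    simp only [sum_range_succ, range_zero, sum_empty, zero_add] at H4
    rcases le_total (μ : ℝ) 8 with h8 | h8
    · have ht : 8 ≤ b 3 := by
        by_contra hlt
        push Not at hlt
        have e0 : (b 0 - μ) * (b 0 - b 2) ≤ 0 :=
          mul_nonpos_of_nonneg_of_nonpos (by linarith) (by linarith)
        have e1 : (b 1 - μ) * (b 1 - b 2) ≤ 0 :=
          mul_nonpos_of_nonneg_of_nonpos (by linarith) (by linarith)
        have e2 : (b 2 - μ) * (b 2 - b 3) ≤ 0 :=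
          mul_nonpos_of_nonneg_of_nonpos (by linarith) (by linarith)
        have e3 : ((b 0 - μ) + (b 1 - μ)) * (b 2 - 2 * b 3 - 3) ≤ 0 :=
          mul_nonpos_of_nonneg_of_nonpos (by linarith) (by linarith)
        have e4 : 0 ≤ ((b 0 - μ) + (b 1 - μ)) ^ 2 := sq_nonneg _
        have e5 : ((μ : ℝ) + 3) * μ ≤ (μ + 3) * b 2 :=
          mul_le_mul_of_nonneg_left (by linarith) (by linarith)
        have e6 : (2 * b 3 - 3 * μ) * (b 3 - μ) ≤ 7 * (b 3 - μ) :=
          mul_le_mul_of_nonneg_right (by linarith) (by linarith)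
        nlinarith
      refine inv_final b _ hμ' n 3 8 (by norm_num) hmono H ?_ hn3
      refine ⟨3 * μ, 3 * μ ^ 2, (b 0 - μ) + (b 1 - μ) + (b 2 - μ), by linarith, ?_, ?_, ht,
        by linarith, by nlinarith, by nlinarith⟩
      · simp [sum_range_succ]; ring
      · simp only [sum_range_succ, range_zero, sum_empty, zero_add]
        have e0 : (b 0 - μ) * (b 0 + μ) ≤ (b 0 - μ) * (b 3 + 8) :=
          mul_le_mul_of_nonneg_left (by linarith) (by linarith)
        have e1 : (b 1 - μ) * (b 1 + μ) ≤ (b 1 - μ) * (b 3 + 8) :=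
          mul_le_mul_of_nonneg_left (by linarith) (by linarith)
        have e2 : (b 2 - μ) * (b 2 + μ) ≤ (b 2 - μ) * (b 3 + 8) :=
          mul_le_mul_of_nonneg_left (by linarith) (by linarith)
        nlinarith
    · refine inv_final b _ hμ' n 3 μ (le_trans (by norm_num) h8) hmono H ?_ hn3
      refine ⟨3 * μ, 3 * μ ^ 2, (b 0 - μ) + (b 1 - μ) + (b 2 - μ), by linarith, ?_, ?_,
        by linarith, by linarith, by nlinarith, by nlinarith⟩
      · simp [sum_range_succ]; ring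
      · simp only [sum_range_succ, range_zero, sum_empty, zero_add]
        have e0 : (b 0 - μ) * (b 0 + μ) ≤ (b 0 - μ) * (b 3 + μ) :=
          mul_le_mul_of_nonneg_left (by linarith) (by linarith)
        have e1 : (b 1 - μ) * (b 1 + μ) ≤ (b 1 - μ) * (b 3 + μ) :=
          mul_le_mul_of_nonneg_left (by linarith) (by linarith)
        have e2 : (b 2 - μ) * (b 2 + μ) ≤ (b 2 - μ) * (b 3 + μ) :=
          mul_le_mul_of_nonneg_left (by linarith) (by linarith)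
        nlinarith

end Pool.Agent.MP_741a63_co
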