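import Mathlib
import Pool.Agent.MP_741a63_co.Seq
import Pool.Agent.MP_741a63_co.Count

set_option autoImplicit false

namespace Pool.Agent.MP_741a63_co

open Finset

theorem exists_sorted_enum {γ : Type*} [DecidableEq γ] (C : Finset γ) (hC : C.Nonempty)
    (a : γ → ℕ) :
    ∃ col : ℕ → γ, Set.InjOn col (range C.card : Set ℕ) ∧ (range C.card).image col = C ∧
      ∀ i, i + 1 < C.card → a (col i) ≤ a (col (i + 1)) := by
  obtain ⟨g0, -⟩ := hC
  let e : Fin C.card ≃ C := C.equivFin.symm
  let f : Fin C.card → ℕ := fun i => a (e i)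
  let σ := Tuple.sort f
  have hm : Monotone (f ∘ σ) := Tuple.monotone_sort f
  let col : ℕ → γ := fun i => if h : i < C.card then (e (σ ⟨i, h⟩) : γ) else g0
  have hinj : Set.InjOn col (range C.card : Set ℕ) := by
    intro i hi j hj hij
    have hi' : i < C.card := by simpa using hi
    have hj' : j < C.card := by simpa using hj
    simp only [col, dif_pos hi', dif_pos hj'] at hij
    have := σ.injective (e.injective (Subtype.ext hij))
    simpa using this
  refine ⟨col, hinj, ?_, ?_⟩
  · apply eq_of_subset_of_card_le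
    · intro g hg
      obtain ⟨i, hi, rfl⟩ := mem_image.1 hg
      have hi' : i < C.card := by simpa using hi
      simp only [col, dif_pos hi']
      exact (e _).2
    · rw [card_image_of_injOn hinj, card_range]
  · intro i hi
    have hi' : i < C.card := by omega
    simp only [col, dif_pos hi, dif_pos hi']
    exact hm (show (⟨i, hi'⟩ : Fin C.card) ≤ ⟨i + 1, hi⟩ from by simp [Fin.le_def])

variable {α : Type*} [DecidableEq α] [Fintype α]

theorem count_ineq_classes (B : Finset (Finset α)) (h4 : ∀ b ∈ B, b.card = 4)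
    (h3 : ∀ T : Finset α, T.card = 3 → ∃! b, b ∈ B ∧ T ⊆ b)
    {γ : Type*} [DecidableEq γ] (c : α → γ)
    (hc : ∀ b ∈ B, ∃ x ∈ b, ∃ y ∈ b, x ≠ y ∧ c x = c y)
    (x : α) (I : Finset γ) (hI : c x ∉ I) :
    (∑ g ∈ I, (univ.filter (fun w => c w = g)).card) ^ 2
        + 3 * ∑ g ∈ I, (univ.filter (fun w => c w = g)).card ≤
      3 * ∑ g ∈ I, (univ.filter (fun w => c w = g)).card ^ 2
        + (univ.filter (fun w => c w = c x)).card
          * ∑ g ∈ I, (univ.filter (fun w => c w = g)).card := by
  set U := univ.filter (fun y => c y ∈ I) with hUdef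
  have key := count_ineq B h4 h3 c hc x U
    (by
      intro y hy h
      simp only [hUdef, mem_filter, mem_univ, true_and] at hy
      exact hI (h ▸ hy))
    (by
      intro y hy w h
      simp only [hUdef, mem_filter, mem_univ, true_and] at hy ⊢
      rwa [h])
  have h1 : U.card = ∑ g ∈ I, (univ.filter (fun w => c w = g)).card := by
    rw [card_eq_sum_card_fiberwise (f := c) (t := I)
      (by intro y hy; simpa [hUdef] using hy)]
    refine sum_congr rfl fun g hg => ?_
    congr 1
    ext w
    simp only [hUdef, mem_filter, mem_univ, true_and]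
    exact ⟨fun h => h.2, fun h => ⟨h ▸ hg, h⟩⟩
  have h2 : ((U ×ˢ U).filter (fun p => c p.1 = c p.2)).card
      = ∑ g ∈ I, (univ.filter (fun w => c w = g)).card ^ 2 := by
    rw [card_eq_sum_card_fiberwise (f := fun p : α × α => c p.1) (t := I)
      (by
        intro p hp
        simp only [hUdef, coe_filter, mem_product, mem_filter, mem_univ, true_and,
          Set.mem_ofPred_eq] at hp
        exact hp.1.1)]
    refine sum_congr rfl fun g hg => ?_
    rw [sq, ← card_product]
    congr 1
    ext ⟨y, z⟩
    simp only [hUdef, mem_filter, mem_univ, true_and, mem_product]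
    constructor
    · rintro ⟨⟨-, h⟩, h'⟩
      exact ⟨h', h ▸ h'⟩
    · rintro ⟨h, h'⟩
      exact ⟨⟨⟨h ▸ hg, h' ▸ hg⟩, h.trans h'.symm⟩, h⟩
  rwa [h1, h2] at key

/-- A colouring of a Steiner quadruple system on `v ≥ 1` points without rainbow block
uses `k` colours with `2 ^ k ≤ 2 v`. -/
theorem two_pow_le (hne : Nonempty α) (B : Finset (Finset α)) (h4 : ∀ b ∈ B, b.card = 4)
    (h3 : ∀ T : Finset α, T.card = 3 → ∃! b, b ∈ B ∧ T ⊆ b)
    {γ : Type*} [DecidableEq γ] (c : α → γ)
    (hc : ∀ b ∈ B, ∃ x ∈ b, ∃ y ∈ b, x ≠ y ∧ c x = c y) :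
    2 ^ (univ.image c).card ≤ 2 * Fintype.card α := by
  set C := univ.image c with hC
  have hCne : C.Nonempty := univ_nonempty.image c
  set a : γ → ℕ := fun g => (univ.filter (fun w => c w = g)).card with ha
  obtain ⟨col, hinj, himg, hmono⟩ := exists_sorted_enum C hCne a
  obtain ⟨n, hn⟩ : ∃ n, C.card = n + 1 := ⟨C.card - 1, by have := hCne.card_pos; omega⟩
  rw [hn] at hinj himg hmono ⊢
  have h0 : col 0 ∈ C := by rw [← himg]; exact mem_image_of_mem _ (by simp)
  obtain ⟨x, -, hx⟩ := mem_image.1 h0
  have hμ : 1 ≤ a (col 0) := card_pos.2 ⟨x, by simp [hx]⟩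
  have hsum : ∀ m ≤ n, ∀ F : γ → ℕ,
      ∑ g ∈ (range m).image (fun j => col (j + 1)), F g = ∑ j ∈ range m, F (col (j + 1)) := by
    intro m hm F
    apply sum_image
    intro i hi j hj hij
    have hi' : i < m := by simpa using hi
    have hj' : j < m := by simpa using hj
    have := hinj (by simp; omega) (by simp; omega) hij
    omega
  have hg := growth (fun j => (a (col (j + 1)) : ℝ)) (a (col 0)) hμ n
    (fun h => by exact_mod_cast hmono 0 (by omega))
    (fun i hi => by exact_mod_cast hmono (i + 1) (by omega))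
    (by
      intro m hm
      have hI : c x ∉ (range m).image (fun j => col (j + 1)) := by
        intro h
        obtain ⟨j, hj, hj'⟩ := mem_image.1 h
        have hj2 : j < m := by simpa using hj
        rw [hx] at hj'
        have := hinj (by simp; omega) (by simp) hj'
        omega
      have key := count_ineq_classes B h4 h3 c hc x _ hI
      rw [hsum m hm a, hsum m hm (fun g => a g ^ 2), hx] at key
      have key' : ((∑ j ∈ range m, a (col (j + 1)) : ℕ) : ℝ) ^ 2
          + 3 * ((∑ j ∈ range m, a (col (j + 1)) : ℕ) : ℝ) ≤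
          3 * ((∑ j ∈ range m, a (col (j + 1)) ^ 2 : ℕ) : ℝ)
          + (a (col 0) : ℝ) * ((∑ j ∈ range m, a (col (j + 1)) : ℕ) : ℝ) := by
        exact_mod_cast key
      push_cast at key'
      linarith)
  have htot : Fintype.card α = a (col 0) + ∑ j ∈ range n, a (col (j + 1)) := by
    rw [← card_univ, card_eq_sum_card_fiberwise (f := c) (s := univ) (t := C)
      (by intro y _; exact mem_image_of_mem _ (mem_univ _)), ← himg, sum_image hinj,
      sum_range_succ', add_comm]
  have hg' : 2 ^ n ≤ a (col 0) + ∑ j ∈ range n, a (col (j + 1)) := by exact_mod_cast hg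
  rw [htot, pow_succ]
  omega

end Pool.Agent.MP_741a63_co
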