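import Mathlib
import Pool.Agent.MP_741a63_co.Upper

set_option autoImplicit false

namespace Pool.Agent.MP_741a63_co

open Finset

theorem inv_strict (b : ℕ → ℝ) (μ : ℝ) (hμ : 2 ≤ μ) (n p : ℕ) (l : ℝ) (hl : (2 : ℝ) ^ p ≤ l)
    (hmono : ∀ i, i + 1 < n → b i ≤ b (i + 1))
    (H : ∀ m ≤ n, (∑ j ∈ range m, b j) ^ 2 ≤
      3 * ∑ j ∈ range m, b j ^ 2 + (μ - 3) * ∑ j ∈ range m, b j)
    (h : Inv b (μ - 3) p l) (hp : p < n) : (2 : ℝ) ^ n + 1 ≤ μ + ∑ j ∈ range n, b j := by
  obtain ⟨i, rfl⟩ : ∃ i, n = p + i + 1 := ⟨n - p - 1, by omega⟩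
  have hl0 : 0 < l := lt_of_lt_of_le (by positivity) hl
  obtain ⟨A, A2, D, hD, hS, -, hu, hd, -, -⟩ :=
    inv_iter b (μ - 3) (p + i + 1) p l hl0 hmono H h i (by omega)
  rw [sum_range_succ, hS]
  have h1 : (2 : ℝ) ^ i * 2 ^ p ≤ 2 ^ i * l := mul_le_mul_of_nonneg_left hl (by positivity)
  have h2 : (2 : ℝ) ^ (p + i + 1) = 2 * (2 ^ i * 2 ^ p) := by ring
  rw [h2]
  linarith

/-- Without a singleton class the growth bound is strict. -/
theorem growth_strict (b : ℕ → ℝ) (μ : ℕ) (hμ : 2 ≤ μ) (n : ℕ)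
    (h0 : 0 < n → (μ : ℝ) ≤ b 0)
    (hmono : ∀ i, i + 1 < n → b i ≤ b (i + 1))
    (H : ∀ m ≤ n, (∑ j ∈ range m, b j) ^ 2 ≤
      3 * ∑ j ∈ range m, b j ^ 2 + ((μ : ℝ) - 3) * ∑ j ∈ range m, b j) :
    (2 : ℝ) ^ n + 1 ≤ μ + ∑ j ∈ range n, b j := by
  have hμ2 : (2 : ℝ) ≤ μ := by exact_mod_cast hμ
  rcases Nat.eq_zero_or_pos n with rfl | hn
  · simp; linarith
  have hb0 := h0 hn
  rcases (show μ = 2 ∨ 3 ≤ μ by omega) with rfl | h3
  · rcases (show n = 1 ∨ 1 < n by omega) with rfl | hn1
    · simp at hb0 ⊢; linarith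
    have hb1 := hmono 0 (by omega)
    norm_num at hb0 hb1
    refine inv_strict b _ hμ2 n 1 2 (by norm_num) hmono H ?_ hn1
    refine ⟨2, 4, b 0 - 2, by linarith, by simp, ?_, by linarith, ?_, ?_, ?_⟩
    · simp; nlinarith
    all_goals norm_num
  · have h3' : (3 : ℝ) ≤ μ := by exact_mod_cast h3
    rcases (show n = 1 ∨ n = 2 ∨ n = 3 ∨ 3 < n by omega) with rfl | rfl | rfl | hn3
    · simp; linarith
    · have hb1 := hmono 0 (by omega)
      simp [sum_range_succ] at hb1 ⊢; linarith
    · have hb1 := hmono 0 (by omega)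
      have hb2 := hmono 1 (by omega)
      simp [sum_range_succ] at hb1 hb2 ⊢; linarith
    have hb1 := hmono 0 (by omega)
    have hb2 := hmono 1 (by omega)
    have hb3 := hmono 2 (by omega)
    norm_num at hb1 hb2 hb3
    have H4 := H 4 (by omega)
    simp only [sum_range_succ, range_zero, sum_empty, zero_add] at H4
    rcases le_total (μ : ℝ) 8 with h8 | h8
    · have ht : 8 ≤ b 3 := by
        by_contra hlt
        push Not at hlt
        have e0 : (b 0 - μ) * (b 0 - b 2) ≤ 0 :=
          mul_nonpos_of_nonneg_of_nonpos (by linarith) (by linarith)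
        have e1 : (b 1 - μ) * (b 1 - b 2) ≤ 0 :=
          mul_nonpos_of_nonneg_of_nonpos (by linarith) (by linarith)
        have e2 : (b 2 - μ) * (b 2 - b 3) ≤ 0 :=
          mul_nonpos_of_nonneg_of_nonpos (by linarith) (by linarith)
        have e3 : ((b 0 - μ) + (b 1 - μ)) * (b 2 - 2 * b 3 - 3) ≤ 0 :=
          mul_nonpos_of_nonneg_of_nonpos (by linarith) (by linarith)
        have e4 : 0 ≤ ((b 0 - μ) + (b 1 - μ)) ^ 2 := sq_nonneg _
        have e5 : ((μ : ℝ) + 3) * μ ≤ (μ + 3) * b 2 :=
          mul_le_mul_of_nonneg_left (by linarith) (by linarith)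
        have e6 : (2 * b 3 - 3 * μ) * (b 3 - μ) ≤ 7 * (b 3 - μ) :=
          mul_le_mul_of_nonneg_right (by linarith) (by linarith)
        nlinarith
      refine inv_strict b _ hμ2 n 3 8 (by norm_num) hmono H ?_ hn3
      refine ⟨3 * μ, 3 * μ ^ 2, (b 0 - μ) + (b 1 - μ) + (b 2 - μ), by linarith, ?_, ?_, ht,
        by linarith, by nlinarith, by nlinarith⟩
      · simp [sum_range_succ]; ring
      · simp only [sum_range_succ, range_zero, sum_empty, zero_add]
        have e0 : (b 0 - μ) * (b 0 + μ) ≤ (b 0 - μ) * (b 3 + 8) :=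
          mul_le_mul_of_nonneg_left (by linarith) (by linarith)
        have e1 : (b 1 - μ) * (b 1 + μ) ≤ (b 1 - μ) * (b 3 + 8) :=
          mul_le_mul_of_nonneg_left (by linarith) (by linarith)
        have e2 : (b 2 - μ) * (b 2 + μ) ≤ (b 2 - μ) * (b 3 + 8) :=
          mul_le_mul_of_nonneg_left (by linarith) (by linarith)
        nlinarith
    · refine inv_strict b _ hμ2 n 3 μ (le_trans (by norm_num) h8) hmono H ?_ hn3
      refine ⟨3 * μ, 3 * μ ^ 2, (b 0 - μ) + (b 1 - μ) + (b 2 - μ), by linarith, ?_, ?_,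
        by linarith, by linarith, by nlinarith, by nlinarith⟩
      · simp [sum_range_succ]; ring
      · simp only [sum_range_succ, range_zero, sum_empty, zero_add]
        have e0 : (b 0 - μ) * (b 0 + μ) ≤ (b 0 - μ) * (b 3 + μ) :=
          mul_le_mul_of_nonneg_left (by linarith) (by linarith)
        have e1 : (b 1 - μ) * (b 1 + μ) ≤ (b 1 - μ) * (b 3 + μ) :=
          mul_le_mul_of_nonneg_left (by linarith) (by linarith)
        have e2 : (b 2 - μ) * (b 2 + μ) ≤ (b 2 - μ) * (b 3 + μ) :=
          mul_le_mul_of_nonneg_left (by linarith) (by linarith)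
        nlinarith

/-- The equality case of the growth lemma. -/
theorem growth_eq (b : ℕ → ℕ) (μ : ℕ) (hμ : 1 ≤ μ) (n : ℕ)
    (h0 : 0 < n → μ ≤ b 0) (hmono : ∀ i, i + 1 < n → b i ≤ b (i + 1))
    (H : ∀ m ≤ n, (∑ j ∈ range m, b j) ^ 2 + 3 * ∑ j ∈ range m, b j ≤
      3 * ∑ j ∈ range m, b j ^ 2 + μ * ∑ j ∈ range m, b j)
    (he : μ + ∑ j ∈ range n, b j = 2 ^ n) : μ = 1 ∧ ∀ j < n, b j = 2 ^ j := by
  have H' : ∀ m ≤ n, (∑ j ∈ range m, (b j : ℝ)) ^ 2 ≤
      3 * ∑ j ∈ range m, (b j : ℝ) ^ 2 + ((μ : ℝ) - 3) * ∑ j ∈ range m, (b j : ℝ) := by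
    intro m hm
    have key : ((∑ j ∈ range m, b j : ℕ) : ℝ) ^ 2 + 3 * ((∑ j ∈ range m, b j : ℕ) : ℝ) ≤
        3 * ((∑ j ∈ range m, b j ^ 2 : ℕ) : ℝ) + (μ : ℝ) * ((∑ j ∈ range m, b j : ℕ) : ℝ) := by
      exact_mod_cast H m hm
    push_cast at key
    linarith
  have hm' : ∀ i, i + 1 < n → (b i : ℝ) ≤ b (i + 1) := fun i hi => by exact_mod_cast hmono i hi
  have h1 : μ = 1 := by
    by_contra hne
    have := growth_strict (fun j => (b j : ℝ)) μ (by omega) n
      (fun h => by exact_mod_cast h0 h) hm' H'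
    have h2 : 2 ^ n + 1 ≤ μ + ∑ j ∈ range n, b j := by exact_mod_cast this
    omega
  subst h1
  refine ⟨rfl, ?_⟩
  have hle : ∀ j ∈ range n, 2 ^ j ≤ b j := by
    intro j hj
    have hj' := mem_range.1 hj
    have hb0 : (1 : ℝ) ≤ b 0 := by exact_mod_cast h0 (by omega)
    obtain ⟨A, A2, D, -, -, -, hu, -⟩ := inv_iter (fun j => (b j : ℝ)) (((1 : ℕ) : ℝ) - 3) n 0 1
      one_pos hm' H' ⟨0, 0, 0, le_rfl, by simp, by simp, hb0, by norm_num, by norm_num,
        by norm_num⟩ j (by omega)
    rw [mul_one, zero_add] at hu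
    have hu' : (2 : ℝ) ^ j ≤ b j := hu
    exact_mod_cast hu'
  have hs : ∀ m, 1 + ∑ j ∈ range m, 2 ^ j = 2 ^ m := fun m => by
    induction m with
    | zero => rfl
    | succ m ih => rw [sum_range_succ, ← add_assoc, ih, pow_succ, mul_two]
  have := hs n
  have hall := (sum_eq_sum_iff_of_le hle).1 (by omega)
  exact fun j hj => (hall j (mem_range.2 hj)).symm

variable {α : Type*} [DecidableEq α] [Fintype α]

/-- The class sizes of an extremal colouring. -/
theorem sizes_eq (B : Finset (Finset α)) (h4 : ∀ b ∈ B, b.card = 4)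
    (h3 : ∀ T : Finset α, T.card = 3 → ∃! b, b ∈ B ∧ T ⊆ b)
    (k : ℕ) (c : α → Fin k) (hs : Function.Surjective c)
    (hc : ∀ b ∈ B, ∃ x ∈ b, ∃ y ∈ b, x ≠ y ∧ c x = c y) (he : 2 ^ k = 2 * Fintype.card α) :
    ∃ σ : Equiv.Perm (Fin k),
      ∀ i : Fin k, (univ.filter fun x => σ (c x) = i).card = 2 ^ (i.val - 1) := by
  obtain ⟨n, rfl⟩ : ∃ n, k = n + 1 := by
    rcases k with _ | n
    · omega
    · exact ⟨n, rfl⟩
  set a : Fin (n + 1) → ℕ := fun g => (univ.filter (fun w => c w = g)).card with ha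
  obtain ⟨col, hinj, himg, hmono⟩ := exists_sorted_enum (univ : Finset (Fin (n + 1)))
    univ_nonempty a
  rw [card_univ, Fintype.card_fin] at hinj himg hmono
  obtain ⟨x, hx⟩ := hs (col 0)
  have hμ : 1 ≤ a (col 0) := card_pos.2 ⟨x, by simp [hx]⟩
  have hsum : ∀ m ≤ n, ∀ F : Fin (n + 1) → ℕ,
      ∑ g ∈ (range m).image (fun j => col (j + 1)), F g = ∑ j ∈ range m, F (col (j + 1)) := by
    intro m hm F
    apply sum_image
    intro i hi j hj hij
    have hi' : i < m := by simpa using hi
    have hj' : j < m := by simpa using hj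
    have := hinj (by simp; omega) (by simp; omega) hij
    omega
  have htot : Fintype.card α = a (col 0) + ∑ j ∈ range n, a (col (j + 1)) := by
    rw [← card_univ, card_eq_sum_card_fiberwise (f := c) (s := univ) (t := univ)
      (by intro y _; exact mem_univ _), ← himg, sum_image hinj, sum_range_succ', add_comm]
  obtain ⟨g0, g1⟩ := growth_eq (fun j => a (col (j + 1))) (a (col 0)) hμ n
    (fun h => hmono 0 (by omega)) (fun i hi => hmono (i + 1) (by omega))
    (by
      intro m hm
      have hI : c x ∉ (range m).image (fun j => col (j + 1)) := by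
        intro h
        obtain ⟨j, hj, hj'⟩ := mem_image.1 h
        have hj2 : j < m := by simpa using hj
        rw [hx] at hj'
        have := hinj (by simp; omega) (by simp) hj'
        omega
      have key := count_ineq_classes B h4 h3 c hc x _ hI
      rwa [hsum m hm a, hsum m hm (fun g => a g ^ 2), hx] at key)
    (by rw [← htot]; rw [pow_succ] at he; omega)
  have hi : Function.Injective fun i : Fin (n + 1) => col i := fun i j hij =>
    Fin.ext (hinj (by simpa using i.2) (by simpa using j.2) hij)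
  let τ := Equiv.ofBijective _ (Finite.injective_iff_bijective.1 hi)
  refine ⟨τ.symm, fun i => ?_⟩
  have : (univ.filter fun x => τ.symm (c x) = i).card = a (col i) := by
    simp only [Equiv.symm_apply_eq]
    rfl
  rw [this]
  obtain ⟨i, hi⟩ := i
  rcases i with _ | i
  · exact g0
  · exact g1 i (by omega)

/-- Blocks through a singleton class of an extremal colouring are nested. -/
theorem nested (B : Finset (Finset α)) (h4 : ∀ b ∈ B, b.card = 4)
    (h3 : ∀ T : Finset α, T.card = 3 → ∃! b, b ∈ B ∧ T ⊆ b)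
    (k : ℕ) (c : α → Fin k) (hc : ∀ b ∈ B, ∃ x ∈ b, ∃ y ∈ b, x ≠ y ∧ c x = c y)
    (hz : ∀ i : Fin k, (univ.filter fun x => c x = i).card = 2 ^ (i.val - 1))
    (b : Finset α) (hb : b ∈ B) (x : α) (hxb : x ∈ b) (hx : (c x).val ≤ 1) (j : Fin k)
    (hj : 3 ≤ (b.filter fun x => c x ≤ j).card) : ∀ y ∈ b, c y ≤ j := by
  have hU : ∀ j < k, (univ.filter fun y => (c y).val ≤ j).card = 2 ^ j := by
    intro j
    induction j with
    | zero =>
      intro hk
      refine Eq.trans ?_ (hz ⟨0, hk⟩)
      congr 1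
      ext y
      simp [Fin.ext_iff]
    | succ j ih =>
      intro hk
      have e : (univ.filter fun y => (c y).val ≤ j + 1) = (univ.filter fun y => (c y).val ≤ j) ∪
          univ.filter fun y => c y = ⟨j + 1, hk⟩ := by
        ext y
        simp only [mem_filter, mem_univ, true_and, mem_union, Fin.ext_iff]
        omega
      rw [e, card_union_of_disjoint, ih (by omega), hz, pow_succ, mul_two]
      · rfl
      · rw [disjoint_filter]
        intro y _ h1 h2
        rw [h2] at h1
        simp at h1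
  have hone : ∀ y, c y = c x → y = x := by
    intro y hy
    have h1 := hz (c x)
    rw [show (c x).val - 1 = 0 by omega, pow_zero] at h1
    exact card_le_one.1 h1.le y (by simp [hy]) x (by simp)
  have hcol : ∀ w y z, w ≠ x → y ≠ x → z ≠ x → ({w, x, y, z} : Finset α) ∈ B → c y ≠ c z →
      c w = c y ∨ c w = c z := by
    intro w y z hw hy hz hB hyz
    obtain ⟨s, hs, t, ht, hst, hct⟩ := hc _ hB
    have a1 := fun h => hw (hone w h)
    have a2 := fun h => hy (hone y h)
    have a3 := fun h => hz (hone z h)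
    simp only [mem_insert, mem_singleton] at hs ht
    rcases hs with rfl | rfl | rfl | rfl <;> rcases ht with rfl | rfl | rfl | rfl <;>
      first
      | contradiction
      | exact Or.inl hct
      | exact Or.inr hct
      | exact Or.inl hct.symm
      | exact Or.inr hct.symm
      | exact absurd hct.symm hyz
      | exact absurd hct a1
      | exact absurd hct a2
      | exact absurd hct a3
      | exact absurd hct.symm a1
      | exact absurd hct.symm a2
      | exact absurd hct.symm a3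
  have hcl : ∀ j, 1 ≤ j → j < k → ∀ w y z, w ≠ x → y ≠ x → z ≠ x → y ≠ z → w ≠ y → w ≠ z →
      ({w, x, y, z} : Finset α) ∈ B → (c y).val ≤ j → (c z).val ≤ j → (c w).val ≤ j := by
    intro j h1
    induction j, h1 using Nat.le_induction with
    | base =>
      intro hk w y z _ hy hz hyz _ _ _ cy cz
      have h2 := hU 1 hk
      have : ({x, y, z} : Finset α).card ≤ 2 ^ 1 := by
        rw [← h2]
        exact card_le_card (by simp [insert_subset_iff, hx, cy, cz])
      rw [card_eq_three.2 ⟨x, y, z, hy.symm, hz.symm, hyz, rfl⟩] at this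
      omega
    | succ j h1 ih =>
      intro hk w y z hw hy hz' hyz hwy hwz hB cy cz
      have ih := ih (by omega)
      by_cases hcc : c y = c z
      swap
      · rcases hcol w y z hw hy hz' hB hcc with h | h <;> rwa [h]
      by_cases hyj : (c y).val ≤ j
      · exact (ih w y z hw hy hz' hyz hwy hwz hB hyj (hcc ▸ hyj)).trans (Nat.le_succ j)
      have hex : ∀ u, ∃ t, u ≠ x → (c u).val ≤ j →
          t ≠ x ∧ t ≠ y ∧ t ≠ u ∧ ({t, x, y, u} : Finset α) ∈ B := fun u => by
        by_cases hu : u ≠ x ∧ (c u).val ≤ j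
        · obtain ⟨t, ht⟩ := exists_fourth B h4 h3 x y u hy.symm hu.1.symm
            (fun h => hyj (h ▸ hu.2))
          exact ⟨t, fun _ _ => ht⟩
        · exact ⟨x, fun a b => absurd ⟨a, b⟩ hu⟩
      choose t ht using hex
      have hmem : ∀ u, u ∈ (univ.filter fun y => (c y).val ≤ j).erase x ↔ u ≠ x ∧ (c u).val ≤ j :=
        fun u => by simp
      have him : ((univ.filter fun y => (c y).val ≤ j).erase x).image t =
          (univ.filter fun s => c s = c y).erase y := by
        refine eq_of_subset_of_card_le (fun s hs => ?_) ?_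
        · obtain ⟨u, hu, rfl⟩ := mem_image.1 hs
          obtain ⟨hux, huj⟩ := (hmem u).1 hu
          obtain ⟨t1, t2, t3, t4⟩ := ht u hux huj
          have huy : c y ≠ c u := fun h => hyj (h ▸ huj)
          rcases hcol (t u) y u t1 hy hux t4 huy with h | h
          · simp [t2, h]
          · refine absurd (ih y (t u) u hy t1 hux t3 t2.symm (fun h => huy (h ▸ rfl)) ?_
              (h ▸ huj) huj) hyj
            convert t4 using 1
            ext s
            simp only [mem_insert, mem_singleton]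
            tauto
        · rw [card_image_of_injOn, card_erase_of_mem (by simp),
            card_erase_of_mem (by simp; omega), hU j (by omega), hz,
            show (c y).val - 1 = j by omega]
          intro u hu u' hu' huu
          obtain ⟨hux, huj⟩ := (hmem u).1 hu
          obtain ⟨hux', huj'⟩ := (hmem u').1 hu'
          obtain ⟨t1, t2, t3, t4⟩ := ht u hux huj
          obtain ⟨-, -, -, t4'⟩ := ht u' hux' huj'
          rw [← huu] at t4'
          exact fourth_unique B h3 x y (t u) u u' hy.symm t1 t2 hux.symm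
            (fun h => hyj (h ▸ huj)) t3 t4 t4'
      obtain ⟨u, hu, rfl⟩ := mem_image.1 (him ▸ (by simp [hyz.symm, hcc] :
        z ∈ (univ.filter fun s => c s = c y).erase y))
      obtain ⟨hux, huj⟩ := (hmem u).1 hu
      obtain ⟨t1, t2, t3, t4⟩ := ht u hux huj
      have : w = u := by
        refine fourth_unique B h3 x y (t u) w u hy.symm t1 t2 hw.symm hwy.symm hwz.symm ?_ t4
        convert hB using 1
        ext s
        simp only [mem_insert, mem_singleton]
        tauto
      rw [this]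
      omega
  intro w hw
  by_contra hwj
  have hj1 : 1 ≤ j.val := by
    by_contra h0
    have h1 := hU j.val j.2
    have : (b.filter fun x => c x ≤ j).card ≤ 2 ^ j.val := by
      rw [← h1]
      exact card_le_card fun s hs => by simpa using (mem_filter.1 hs).2
    rw [show j.val = 0 by omega] at this
    omega
  have hwx : w ≠ x := fun h => hwj (by rw [h, Fin.le_def]; omega)
  have hf : (b.filter fun x => c x ≤ j) = b.erase w := by
    refine eq_of_subset_of_card_le (fun s hs => ?_) (by rw [card_erase_of_mem hw, h4 b hb]; omega)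
    obtain ⟨s1, s2⟩ := mem_filter.1 hs
    exact mem_erase.2 ⟨fun h => hwj (h ▸ s2), s1⟩
  have hx' : x ∈ b.erase w := mem_erase.2 ⟨hwx.symm, hxb⟩
  obtain ⟨y, z, hyz, hE⟩ := card_eq_two.1 (show ((b.erase w).erase x).card = 2 by
    rw [card_erase_of_mem hx', card_erase_of_mem hw, h4 b hb])
  have hy : y ∈ (b.erase w).erase x := by rw [hE]; simp
  have hz' : z ∈ (b.erase w).erase x := by rw [hE]; simp
  obtain ⟨y1, y2⟩ := mem_erase.1 hy
  obtain ⟨z1, z2⟩ := mem_erase.1 hz'
  have hB : ({w, x, y, z} : Finset α) ∈ B := by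
    rwa [← hE, insert_erase hx', insert_erase hw]
  have y3 := (mem_erase.1 y2).1.symm
  have z3 := (mem_erase.1 z2).1.symm
  rw [← hf] at y2 z2
  exact hwj (hcl j hj1 j.2 w y z hwx y1 z1 hyz y3 z3 hB (mem_filter.1 y2).2 (mem_filter.1 z2).2)

end Pool.Agent.MP_741a63_co
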