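import Mathlib

set_option autoImplicit false

namespace Pool.Agent.MP_741a63_co

open Finset

/-- Position of the highest non-zero coordinate, shifted by one. -/
def topBit {n : ℕ} (u : Fin n → ZMod 2) : ℕ :=
  univ.sup (fun i : Fin n => if u i = 0 then 0 else i.val + 1)

theorem le_topBit {n : ℕ} (u : Fin n → ZMod 2) (i : Fin n) (h : u i ≠ 0) :
    i.val + 1 ≤ topBit u := by
  have := le_sup (f := fun i : Fin n => if u i = 0 then 0 else i.val + 1) (mem_univ i)
  simp only [if_neg h] at this
  exact this

theorem topBit_cases {n : ℕ} (u : Fin n → ZMod 2) :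
    topBit u = 0 ∨ ∃ i : Fin n, u i ≠ 0 ∧ topBit u = i.val + 1 := by
  rcases (univ : Finset (Fin n)).eq_empty_or_nonempty with h | h
  · left; simp [topBit, h]
  · obtain ⟨i, -, hi⟩ :=
      exists_mem_eq_sup univ h (fun i : Fin n => if u i = 0 then 0 else i.val + 1)
    by_cases hu : u i = 0
    · left; rw [topBit, hi]; simp [hu]
    · right; exact ⟨i, hu, by rw [topBit, hi]; simp [hu]⟩

theorem topBit_single {n : ℕ} (i : Fin n) : topBit (Pi.single i (1 : ZMod 2)) = i.val + 1 := by
  rcases topBit_cases (Pi.single i (1 : ZMod 2) : Fin n → ZMod 2) with h | ⟨j, hj, h⟩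
  · have := le_topBit (Pi.single i (1 : ZMod 2) : Fin n → ZMod 2) i (by simp)
    omega
  · have : j = i := by
      by_contra hne
      exact hj (Pi.single_eq_of_ne hne _)
    rw [h, this]

theorem topBit_zero {n : ℕ} : topBit (0 : Fin n → ZMod 2) = 0 := by
  rcases topBit_cases (0 : Fin n → ZMod 2) with h | ⟨j, hj, -⟩
  · exact h
  · exact absurd rfl hj

/-- The planes of the binary affine space of dimension `n`, coloured by the highest bit. -/
theorem exists_affine (n : ℕ) : ∃ B : Finset (Finset (Fin (2 ^ n))),
    (∀ b ∈ B, b.card = 4) ∧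
    (∀ T : Finset (Fin (2 ^ n)), T.card = 3 → ∃! b, b ∈ B ∧ T ⊆ b) ∧
    ∃ c : Fin (2 ^ n) → ℕ, (∀ b ∈ B, ∃ x ∈ b, ∃ y ∈ b, x ≠ y ∧ c x = c y) ∧
      n + 1 ≤ (univ.image c).card := by
  classical
  have hcard : Fintype.card (Fin n → ZMod 2) = 2 ^ n := by simp
  let e : Fin (2 ^ n) ≃ (Fin n → ZMod 2) := (Fintype.equivFinOfCardEq hcard).symm
  have h2 : ∀ u : Fin n → ZMod 2, u + u = 0 := by
    intro u; ext i; exact CharTwo.add_self_eq_zero _
  refine ⟨univ.filter (fun b => b.card = 4 ∧ ∑ x ∈ b, e x = 0), ?_, ?_,
    fun x => topBit (e x), ?_, ?_⟩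
  · intro b hb
    exact (mem_filter.1 hb).2.1
  · intro T hT
    let w := e.symm (∑ x ∈ T, e x)
    have hew : e w = ∑ x ∈ T, e x := by simp [w]
    have hw : w ∉ T := by
      intro hwT
      have h1 := add_sum_erase T (fun x => e x) hwT
      rw [← hew] at h1
      have h3 : ∑ x ∈ T.erase w, e x = 0 := by simpa using h1
      have hc : (T.erase w).card = 2 := by rw [card_erase_of_mem hwT, hT]
      obtain ⟨p, q, hpq, hE⟩ := card_eq_two.1 hc
      rw [hE, sum_pair hpq] at h3
      apply hpq
      apply e.injective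
      have := h2 (e q)
      rw [← h3] at this
      exact (add_right_cancel this).symm
    refine ⟨insert w T, ⟨?_, subset_insert _ _⟩, ?_⟩
    · simp only [mem_filter, mem_univ, true_and]
      refine ⟨by rw [card_insert_of_notMem hw, hT], ?_⟩
      rw [sum_insert hw, ← hew, h2]
    · rintro b ⟨hb, hTb⟩
      simp only [mem_filter, mem_univ, true_and] at hb
      obtain ⟨w', hw'b, hw'T⟩ := exists_mem_notMem_of_card_lt_card
        (show T.card < b.card by rw [hT, hb.1]; norm_num)
      have hbe : insert w' T = b := eq_of_subset_of_card_le (insert_subset hw'b hTb)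
        (by rw [card_insert_of_notMem hw'T, hT, hb.1])
      have hs := hb.2
      rw [← hbe, sum_insert hw'T, ← hew] at hs
      have : w' = w := by
        apply e.injective
        have := h2 (e w)
        rw [← hs] at this
        exact (add_right_cancel this).symm
      rw [← hbe, this]
  · intro b hb
    simp only [mem_filter, mem_univ, true_and] at hb
    have hbne : b.Nonempty := card_pos.1 (by rw [hb.1]; norm_num)
    obtain ⟨x, hx, hmax⟩ := exists_max_image b (fun x => topBit (e x)) hbne
    rcases topBit_cases (e x) with h | ⟨i, hi, h⟩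
    · obtain ⟨y, hy, hyx⟩ := exists_mem_ne (show 1 < b.card by rw [hb.1]; norm_num) x
      refine ⟨x, hx, y, hy, hyx.symm, ?_⟩
      have := hmax y hy
      simp only at this ⊢
      omega
    · have hs : ∑ y ∈ b, e y i = 0 := by
        have := congrFun hb.2 i
        simpa [Finset.sum_apply] using this
      rw [← add_sum_erase b _ hx] at hs
      have : ∃ y ∈ b.erase x, e y i ≠ 0 := by
        by_contra hno
        push Not at hno
        rw [sum_eq_zero hno, add_zero] at hs
        exact hi hs
      obtain ⟨y, hy, hyi⟩ := this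
      refine ⟨x, hx, y, mem_of_mem_erase hy, (ne_of_mem_erase hy).symm, ?_⟩
      have h1 := hmax y (mem_of_mem_erase hy)
      have h3 := le_topBit (e y) i hyi
      simp only at h1 ⊢
      omega
  · rw [← card_range (n + 1)]
    apply card_le_card
    intro k hk
    have hk' : k < n + 1 := by simpa using hk
    rcases k with _ | k
    · exact mem_image.2 ⟨e.symm 0, mem_univ _, by simp [topBit_zero]⟩
    · exact mem_image.2 ⟨e.symm (Pi.single (⟨k, by omega⟩ : Fin n) 1), mem_univ _,
        by simp [topBit_single]⟩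

end Pool.Agent.MP_741a63_co
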