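import Mathlib
import Pool.Agent.MP_741a63_co.Upper
import Pool.Agent.MP_741a63_co.Lower

set_option autoImplicit false

namespace Pool.Agent.MP_741a63_co

open Finset

theorem card_le_one_add_logb (v : ℕ) (hv : 1 ≤ v) (B : Finset (Finset (Fin v)))
    (h4 : ∀ b ∈ B, b.card = 4)
    (h3 : ∀ T : Finset (Fin v), T.card = 3 → ∃! b, b ∈ B ∧ T ⊆ b)
    (c : Fin v → ℕ) (hc : ∀ b ∈ B, ∃ x ∈ b, ∃ y ∈ b, x ≠ y ∧ c x = c y) :
    ((univ.image c).card : ℝ) ≤ 1 + Real.logb 2 (v : ℝ) := by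
  have h := two_pow_le ⟨⟨0, hv⟩⟩ B h4 h3 c hc
  rw [Fintype.card_fin] at h
  have hv' : (0 : ℝ) < v := by exact_mod_cast hv
  have h' : (2 : ℝ) ^ ((univ.image c).card : ℝ) ≤ 2 * v := by
    rw [Real.rpow_natCast]; exact_mod_cast h
  have h2 := (Real.le_logb_iff_rpow_le (b := 2) (by norm_num) (by positivity)).2 h'
  rwa [Real.logb_mul (by norm_num) hv'.ne', Real.logb_self_eq_one (by norm_num)] at h2

theorem upper_eps (ε : ℝ) (hε : 0 < ε) : ∃ N : ℕ, ∀ v : ℕ, N ≤ v →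
    ∀ B : Finset (Finset (Fin v)), (∀ b ∈ B, b.card = 4) →
      (∀ T : Finset (Fin v), T.card = 3 → ∃! b, b ∈ B ∧ T ⊆ b) →
      ∀ c : Fin v → ℕ, (∀ b ∈ B, ∃ x ∈ b, ∃ y ∈ b, x ≠ y ∧ c x = c y) →
      ((Finset.univ.image c).card : ℝ) ≤ (1 + ε) * Real.logb 2 (v : ℝ) := by
  obtain ⟨n, hn⟩ := exists_nat_ge (1 / ε)
  refine ⟨2 ^ n, fun v hv B h4 h3 c hc => ?_⟩
  have hv1 : 1 ≤ v := le_trans Nat.one_le_two_pow hv
  have h := card_le_one_add_logb v hv1 B h4 h3 c hc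
  have hv' : (0 : ℝ) < v := by exact_mod_cast hv1
  have hl : (n : ℝ) ≤ Real.logb 2 (v : ℝ) := by
    rw [Real.le_logb_iff_rpow_le (by norm_num) hv', Real.rpow_natCast]
    exact_mod_cast hv
  have h1 : 1 ≤ ε * n := by
    rw [div_le_iff₀ hε] at hn; linarith
  have h2 : ε * n ≤ ε * Real.logb 2 (v : ℝ) := mul_le_mul_of_nonneg_left hl hε.le
  linarith

theorem lower_eps (ε : ℝ) (hε : 0 < ε) (N : ℕ) : ∃ v : ℕ, N ≤ v ∧
    ∃ B : Finset (Finset (Fin v)), (∀ b ∈ B, b.card = 4) ∧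
      (∀ T : Finset (Fin v), T.card = 3 → ∃! b, b ∈ B ∧ T ⊆ b) ∧
      ∃ c : Fin v → ℕ, (∀ b ∈ B, ∃ x ∈ b, ∃ y ∈ b, x ≠ y ∧ c x = c y) ∧
      (1 - ε) * Real.logb 2 (v : ℝ) ≤ ((Finset.univ.image c).card : ℝ) := by
  obtain ⟨B, h4, h3, c, hc, hk⟩ := exists_affine N
  refine ⟨2 ^ N, Nat.lt_two_pow_self.le, B, h4, h3, c, hc, ?_⟩
  have hl : Real.logb 2 ((2 ^ N : ℕ) : ℝ) = N := by
    push_cast
    rw [Real.logb_pow, Real.logb_self_eq_one (by norm_num), mul_one]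
  have hk' : (N : ℝ) + 1 ≤ ((Finset.univ.image c).card : ℝ) := by exact_mod_cast hk
  rw [hl]
  have : 0 ≤ ε * N := by positivity
  linarith

end Pool.Agent.MP_741a63_co
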