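import Mathlib
import Pool.Agent.MP_741a63_co.Upper
import Pool.Agent.MP_741a63_co.Lower

set_option autoImplicit false

namespace Pool.Agent.MP_741a63_co

open Finset

theorem sharp_upper (v : ℕ) (hv : 1 ≤ v) (B : Finset (Finset (Fin v)))
    (h4 : ∀ b ∈ B, b.card = 4)
    (h3 : ∀ T : Finset (Fin v), T.card = 3 → ∃! b, b ∈ B ∧ T ⊆ b)
    (k : ℕ) (c : Fin v → Fin k) (hs : Function.Surjective c)
    (hc : ∀ b ∈ B, ∃ x ∈ b, ∃ y ∈ b, x ≠ y ∧ c x = c y) : 2 ^ k ≤ 2 * v := by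
  have h := two_pow_le ⟨⟨0, hv⟩⟩ B h4 h3 c hc
  rwa [image_univ_of_surjective hs, card_univ, Fintype.card_fin, Fintype.card_fin] at h

theorem sharp_lower (n : ℕ) : ∃ B : Finset (Finset (Fin (2 ^ n))),
    (∀ b ∈ B, b.card = 4) ∧
    (∀ T : Finset (Fin (2 ^ n)), T.card = 3 → ∃! b, b ∈ B ∧ T ⊆ b) ∧
    ∃ c : Fin (2 ^ n) → Fin (n + 1), Function.Surjective c ∧
      ∀ b ∈ B, ∃ x ∈ b, ∃ y ∈ b, x ≠ y ∧ c x = c y := by
  obtain ⟨B, h4, h3, c, hc, hk⟩ := exists_affine n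
  have h := two_pow_le ⟨⟨0, Nat.one_le_two_pow⟩⟩ B h4 h3 c hc
  rw [Fintype.card_fin, ← pow_succ'] at h
  have hle : (univ.image c).card ≤ n + 1 := (Nat.pow_le_pow_iff_right (by norm_num)).1 h
  have he : (univ.image c).card = n + 1 := le_antisymm hle hk
  let e := (univ.image c).equivFinOfCardEq he
  refine ⟨B, h4, h3, fun x => e ⟨c x, mem_image_of_mem _ (mem_univ _)⟩, ?_, ?_⟩
  · intro j
    obtain ⟨x, -, hx⟩ := mem_image.1 (e.symm j).2
    refine ⟨x, ?_⟩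
    have : (⟨c x, mem_image_of_mem _ (mem_univ _)⟩ : univ.image c) = e.symm j := Subtype.ext hx
    simp only [this, Equiv.apply_symm_apply]
  · intro b hb
    obtain ⟨x, hx, y, hy, hxy, hcxy⟩ := hc b hb
    exact ⟨x, hx, y, hy, hxy, by simp only [hcxy]⟩

end Pool.Agent.MP_741a63_co
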