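import Mathlib

set_option autoImplicit false

namespace Pool.Agent.MP_741a63_co

open Finset

/-- the fourth point operation of a quadruple system -/
structure Sk {α : Type} (q : α → α → α → α) : Prop where
  idem : ∀ x y, q x x y = y
  s1 : ∀ x y z, q x y z = q y x z
  s2 : ∀ x y z, q x y z = q x z y
  inv : ∀ x y z, q x y (q x y z) = z

/-- the data carried along the doubling -/
structure Gd {α : Type} (k : ℕ) (q : α → α → α → α) (c : α → ℕ) : Prop where
  sk : Sk q
  lt : ∀ x, c x < k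
  sur : ∀ i < k, ∃ x, c x = i
  col : ∀ x y z, c x = c y ∨ c x = c z ∨ c y = c z ∨ c (q x y z) = c x ∨ c (q x y z) = c y ∨
    c (q x y z) = c z
  hom : ∀ f : α → Bool, (∀ x y z, f (q x y z) = ((f x ^^ f y) ^^ f z)) → ∀ x y, f x = f y
  cfg : ∃ a b d e, a ≠ b ∧ a ≠ d ∧ b ≠ d ∧ c b = c a ∧ c d = c a ∧ c (q a b d) = c a ∧
    e ≠ a ∧ e ≠ b ∧ e ≠ d ∧ e ≠ q a b d ∧ q a b e = q d (q a b d) e

/-- table of a quadruple system on sixteen points -/
def tab16 : ℕ := 0xfedcba9876543210ef8bc9ad40271536d8fa9cbe25634701cbafed8931027465bc9ef8da13456072a9cd8feb041623579ab8defc673051248de9abcf5271064374231065f98ecdba605134729fdab8ce526041378dfb9eac47325601eabfdc8931476250cb9dfae825740316d8ecaf9b13067524bca8e9fd06152743aec98bdfef8bc9ad40271536fedcba98765432108de9abcf67305124bc9ef8da25634701cbafed89041623579ab8defc53716042a9cd8feb12450673d8fa9cbe3102746547620513edaf8c9b06754321decba98f25361740ace9dfb874036152fb9ec8ad135426078adcebf952173064c9f8beda3120547698bafdec60417235bf8d9aced8fa9cbe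256347018de9abcf67305124fedcba9876543210a9cd7fe4b01823569ab7def5c2810643cbafed8931027465bc9ef8da04261537ef8459ad13bc6072267bc301de45af8957602143edf98bac6351802b4fd7e9ca3048126c597dfabe45320716a8efdc9b71236450fb9acde8021546378acb9edf140635729caeb8fdcbafed8931027465bc9ef8da25634701a9cd7fe4b0182356fedcba9876543210ef7bc9a6d8305124d8fa9cbe124506738de9abcf537160429a486efc0b2d153732b7d150c496fea81506823b4ce79afd061534729ecab8df2384051d67acef9b74235061f9becd8a47321605ea8fdcb960512743afd98bce516043278dfba9ecbc9ef8da13456072cbafed89041623579ab7def5c2810643ef7bc9a6d8305124fedcba98765432108de9abcf40271536d8fa9cbe31027465a9568feb2cd3470110cd7432b56a98fe3428601c5b7efd9a4183520d67bfcae956104723aefb89dc620531749fc8bead036125478da9ebcf75421360f9edacb827340651ea9cdf8ba9cd8feb041623579ab8defc53716042cbafed8931027465d8fa9cbe124506738de9abcf40271536fedcba9876543210ef8bc9ad25634701bc9ef8da6730512405314726a8ebd9cf431206578a9fecdb17042563e9ac8bfd61257430bfca9de826701345de89afbc304652719cbdfa8e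54673102cdfeb8a972536014fbd8ce9a9ab8defc67305124a9cd8feb12450673bc9ef8da042615378de9abcf53716042d8fa9cbe31027465ef8bc9ad25634701fedcba9876543210cbafed8940172356610532749fc8baed72431560f9adceb834270651ca9efd8b056123478de9abcf50167432bcfa98de16504723aedb89fc27346015eb8cdf9a43725106d8bfeca98de9abcf52710643d8fa9cbe31027465ef8459ad13bc60729a486efc0b2d1537a9568feb2cd34701bc9ef8da67305124cbafed8940172356fedcba9876543210531026478af9ebdc213bc706a845dfe970b2d315f486ac9e12cd30749568befa07614523edab89cf64057132bfce98ad46730251de9fca8b35271460c9eafdb874231065f98ecdba47620513edaf8c9b267bc301de45af8932b7d150c496fea810cd7432b56a98fe05314726a8ebd9cf610532749fc8baed531026478af9ebdcfedcba98765432109de458fa67bc01238a496ecf5b7d2301ef56ab894cd71032c8af9dbe30217546dcfe89ab21305764b98afced12034675ab98efdc03126457605134729fdab8ce06754321decba98f57602143edf98bac1506823b4ce79afd3428601c5b7efd9a431206578a9fecdb72431560f9adceb8213bc706a845dfe99de458fa67bc0123fedcba9876543210dcfe79a4b5681032ab97efd5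c4862301ba89fecd0312645789badcef12034675c8af9dbe21305764efcdab8930217546526041378dfb9eac25361740ace9dfb86351802b4fd7e9ca061534729ecab8df4183520d67bfcae917042563e9ac8bfd34270651ca9efd8b70b2d315f486ac9e8a496ecf5b7d2301dcfe79a4b5681032fedcba9876543210b97afce6d84501239debc8fa21305764ef98abdc30217546abcdef8903126457c8af9dbe1203467547325601eabfdc8974036152fb9ec8ad3048126c597dfabe2384051d67acef9b56104723aefb89dc61257430bfca9de8056123478de9abcf12cd30749568befaef56ab894cd71032ab97efd5c4862301b97afce6d8450123fedcba9876543210dcfe89ab12034675c8af9dbe031264578ab9decf302175469debc8fa2130576431476250cb9dfae8135426078adcebf945320716a8efdc9b74235061f9becd8a620531749fc8bead26701345de89afbc50167432bcfa98de07614523edab89cfc8af9dbe30217546ba89fecd031264579debc8fa21305764dcfe89ab12034675fedcba9876543210abcdef8954762301ef98abdc4567103289badcef6745012325740316d8ecaf9b52173064c9f8beda71236450fb9acde847321605ea8fdcb9036125478da9ebcf304652719cbdfa8e16504723aedb89fc64057132bfce98addcfe89ab21305764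89badcef12034675ef98abdc30217546c8af9dbe03126457abcdef8954762301fedcba98765432109debc8fa67450123ba89fecd4567103213067524bca8e9fd3120547698bafdec021546378acb9edf60512743afd98bce75421360f9edacb854673102cdfeb8a927346015eb8cdf9a46730251de9fca8bb98afced12034675c8af9dbe21305764abcdef89031264578ab9decf30217546ef98abdc456710329debc8fa67450123fedcba9876543210dcfe89ab5476230106152743aec98bdf60417235bf8d9ace140635729caeb8fd516043278dfba9ec27340651ea9cdf8b72536014fbd8ce9a43725106d8bfeca935271460c9eafdb8ab98efdc03126457efcdab8930217546c8af9dbe120346759debc8fa2130576489badcef67450123ba89fecd45671032dcfe89ab54762301fedcba9876543210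

/-- the operation -/
def q16 (x y z : Fin 16) : Fin 16 :=
  ⟨(tab16 >>> (4 * (256 * x.val + 16 * y.val + z.val))) % 16, Nat.mod_lt _ (by decide)⟩

/-- the colouring with classes of sizes 1, 1, 2, 4, 8 -/
def c16 (x : Fin 16) : ℕ :=
  if x.val < 1 then 0 else if x.val < 2 then 1 else if x.val < 4 then 2 else
    if x.val < 8 then 3 else 4

theorem gd16 : Gd 5 q16 c16 := by
  refine ⟨⟨by decide +kernel, by decide +kernel, by decide +kernel, by decide +kernel⟩,
    by decide +kernel, by decide +kernel, by decide +kernel, fun f h => ?_,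
    ⟨8, 10, 11, 9, by decide +kernel⟩⟩
  have e : ∀ x y z w, q16 x y z = w → f w = ((f x ^^ f y) ^^ f z) := fun x y z w hw => by
    rw [← hw, h]
  have e3 := e 0 1 2 3 (by decide +kernel)
  have e6 := e 0 1 4 6 (by decide +kernel)
  have e7 := e 0 2 4 7 (by decide +kernel)
  have e5 := e 0 1 7 5 (by decide +kernel)
  have e12 := e 4 6 7 12 (by decide +kernel)
  have e14 := e 0 1 12 14 (by decide +kernel)
  have e9 := e 0 2 12 9 (by decide +kernel)
  have e10 := e 0 1 9 10 (by decide +kernel)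
  have e11 := e 0 4 12 11 (by decide +kernel)
  have e8 := e 0 1 11 8 (by decide +kernel)
  have e15 := e 0 2 11 15 (by decide +kernel)
  have e13 := e 0 1 15 13 (by decide +kernel)
  have r1 := e 0 4 8 10 (by decide +kernel)
  have r2 := e 0 5 8 14 (by decide +kernel)
  have r3 := e 1 2 8 10 (by decide +kernel)
  have key : ∀ x, f x = f 0 := by
    have h0 : f 1 = f 0 ∧ f 2 = f 0 ∧ f 4 = f 0 := by
      simp only [e8, e11, e10, e9, e14, e12, e5, e7, e6] at r1 r2 r3
      revert r1 r2 r3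
      generalize f 0 = a0
      generalize f 1 = a1
      generalize f 2 = a2
      generalize f 4 = a4
      revert a0 a1 a2 a4
      decide
    obtain ⟨h1, h2, h4⟩ := h0
    intro x
    fin_cases x <;> simp [e13, e15, e8, e11, e10, e9, e14, e12, e5, e7, e6, e3, h1, h2, h4]
  intro x y
  rw [key x, key y]

theorem Sk.idem2 {α : Type} {q : α → α → α → α} (h : Sk q) (x y : α) : q x y x = y := by
  rw [h.s2, h.idem]

theorem Sk.idem3 {α : Type} {q : α → α → α → α} (h : Sk q) (x y : α) : q y x x = y := by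
  rw [h.s1, h.idem2]

open Classical in
/-- the twist -/
noncomputable def tw {α : Type} (q : α → α → α → α) (P : Set α) (x y z : α) : Bool :=
  decide (({x, y, z, q x y z} : Set α) = P)

/-- the twisted double -/
noncomputable def dbl {α : Type} (q : α → α → α → α) (P : Set α) (u v w : α × Bool) : α × Bool :=
  (q u.1 v.1 w.1, ((u.2 ^^ v.2) ^^ w.2) ^^ tw q P u.1 v.1 w.1)

theorem gd_step {α : Type} {k : ℕ} {q : α → α → α → α} {c : α → ℕ} (h : Gd k q c) :
    ∃ (q' : α × Bool → α × Bool → α × Bool → α × Bool) (c' : α × Bool → ℕ),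
      Gd (k + 1) q' c' := by
  obtain ⟨a, b, d, e, hab, had, hbd, cb, cd, cq, hea, heb, hed, heq, hcf⟩ := h.cfg
  have sk := h.sk
  obtain ⟨P, hP⟩ : ∃ P : Set α, P = {a, b, d, q a b d} := ⟨_, rfl⟩
  have tmem : ∀ x y z, tw q P x y z = true → x ∈ P ∧ y ∈ P ∧ z ∈ P := fun x y z hh => by
    rw [← of_decide_eq_true hh]; simp
  have t0 : ∀ x y, tw q P x x y = false := fun x y => by
    refine decide_eq_false fun hh => ?_
    rw [sk.idem] at hh
    have ha : a ∈ P := by simp [hP]
    have hb : b ∈ P := by simp [hP]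
    have hd : d ∈ P := by simp [hP]
    rw [← hh] at ha hb hd
    simp only [Set.mem_insert_iff, Set.mem_singleton_iff, or_self, or_self_left] at ha hb hd
    rcases ha with ha | ha <;> rcases hb with hb | hb <;> rcases hd with hd | hd <;> simp_all
  have t1 : ∀ x y z, tw q P x y z = tw q P y x z := fun x y z => by
    unfold tw; rw [sk.s1 x y z, Set.insert_comm x y]
  have t2 : ∀ x y z, tw q P x y z = tw q P x z y := fun x y z => by
    unfold tw; rw [sk.s2 x y z, Set.insert_comm y z]
  have t3 : ∀ x y z, tw q P x y (q x y z) = tw q P x y z := fun x y z => by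
    unfold tw; rw [sk.inv, Set.pair_comm (q x y z) z]
  have heP : e ∉ P := by simp [hP, hea, heb, hed, heq]
  have te : ∀ x y, tw q P x y e = false := fun x y => by
    by_contra hh
    exact heP (tmem x y e (by simpa using hh)).2.2
  have tP : tw q P a b d = true := decide_eq_true hP.symm
  have cP : ∀ x ∈ P, c x = c a := by
    intro x hx
    rw [hP] at hx
    rcases hx with rfl | rfl | rfl | rfl <;> first | rfl | assumption
  refine ⟨dbl q P, fun u => if u.2 then k else c u.1, ⟨?_, ?_, ?_, ?_⟩, ?_, ?_, ?_, ?_, ?_⟩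
  · rintro ⟨x, i⟩ ⟨y, j⟩
    simp only [dbl, sk.idem, t0]
    cases i <;> cases j <;> rfl
  · rintro ⟨x, i⟩ ⟨y, j⟩ ⟨z, l⟩
    simp only [dbl, sk.s1 x y z, t1 x y z]
    cases i <;> cases j <;> rfl
  · rintro ⟨x, i⟩ ⟨y, j⟩ ⟨z, l⟩
    simp only [dbl, sk.s2 x y z, t2 x y z]
    cases i <;> cases j <;> cases l <;> rfl
  · rintro ⟨x, i⟩ ⟨y, j⟩ ⟨z, l⟩
    simp only [dbl, sk.inv, t3]
    generalize tw q P x y z = t
    cases i <;> cases j <;> cases l <;> cases t <;> rfl
  · rintro ⟨x, i⟩
    have := h.lt x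
    cases i
    · exact Nat.lt_succ_of_lt this
    · exact Nat.lt_succ_self k
  · intro i hi
    rcases Nat.lt_succ_iff_lt_or_eq.1 hi with hi | rfl
    · obtain ⟨x, hx⟩ := h.sur i hi
      exact ⟨(x, false), hx⟩
    · exact ⟨(a, true), rfl⟩
  · rintro ⟨x, i⟩ ⟨y, j⟩ ⟨z, l⟩
    have hc := h.col x y z
    cases ht : tw q P x y z
    · cases i <;> cases j <;> cases l <;> simp [dbl, ht, hc]
    · obtain ⟨hx, hy, hz⟩ := tmem x y z ht
      cases i <;> cases j <;> cases l <;> simp [cP x hx, cP y hy, cP z hz]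
  · intro f hf
    have h1 : ∀ y, f (y, true) = ((f (a, false) ^^ f (a, true)) ^^ f (y, false)) := fun y => by
      have := hf (a, false) (a, true) (y, false)
      simpa [dbl, sk.idem, t0] using this
    have h2 : ∀ x y z, f (q x y z, tw q P x y z) =
        ((f (x, false) ^^ f (y, false)) ^^ f (z, false)) := fun x y z => by
      have := hf (x, false) (y, false) (z, false)
      simpa [dbl] using this
    have h3 : (f (a, false) ^^ f (a, true)) = false := by
      have p1 := h2 a b d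
      have p2 := h2 a b e
      have p3 := h2 d (q a b d) e
      rw [tP, h1] at p1
      rw [te] at p2 p3
      rw [hcf, p3] at p2
      revert p1 p2
      generalize (f (a, false) ^^ f (a, true)) = δ
      generalize f (a, false) = x1
      generalize f (b, false) = x2
      generalize f (d, false) = x3
      generalize f (e, false) = x4
      generalize f (q a b d, false) = x5
      revert δ x1 x2 x3 x4 x5
      decide
    have h4 : ∀ y i, f (y, i) = f (y, false) := fun y i => by
      cases i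
      · rfl
      · rw [h1, h3, Bool.false_xor]
    have h5 := h.hom (fun x => f (x, false)) fun x y z => by rw [← h2, h4 (q x y z) (tw q P x y z)]
    rintro ⟨x, i⟩ ⟨y, j⟩
    rw [h4 x i, h4 y j]
    exact h5 x y
  · have t4 : tw q P e (q a b e) e = false := te _ _
    refine ⟨(a, true), (b, true), (e, true), (e, false), ?_⟩
    simp [dbl, te, hab, hea.symm, heb.symm, sk.idem2]

theorem gd_all (n : ℕ) : ∃ (q : Fin (2 ^ (n + 4)) → Fin (2 ^ (n + 4)) → Fin (2 ^ (n + 4)) →
    Fin (2 ^ (n + 4))) (c : Fin (2 ^ (n + 4)) → ℕ), Gd (n + 5) q c := by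
  induction n with
  | zero => exact ⟨q16, c16, gd16⟩
  | succ n ih =>
    obtain ⟨q, c, h⟩ := ih
    obtain ⟨q', c', h'⟩ := gd_step h
    have hc : Fintype.card (Fin (2 ^ (n + 4)) × Bool) = 2 ^ (n + 1 + 4) := by
      simp [pow_succ]
    let e := Fintype.equivFinOfCardEq hc
    refine ⟨fun x y z => e (q' (e.symm x) (e.symm y) (e.symm z)), fun x => c' (e.symm x),
      ⟨fun x y => ?_, fun x y z => ?_, fun x y z => ?_, fun x y z => ?_⟩, fun x => h'.lt _,
      fun i hi => ?_, fun x y z => ?_, fun f hf x y => ?_, ?_⟩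
    · rw [h'.sk.idem, e.apply_symm_apply]
    · rw [h'.sk.s1]
    · rw [h'.sk.s2]
    · rw [e.symm_apply_apply, h'.sk.inv, e.apply_symm_apply]
    · obtain ⟨x, hx⟩ := h'.sur i hi
      exact ⟨e x, by rw [e.symm_apply_apply, hx]⟩
    · rw [e.symm_apply_apply]
      exact h'.col _ _ _
    · have := h'.hom (fun u => f (e u)) (fun u v w => by
        have := hf (e u) (e v) (e w)
        simpa only [e.symm_apply_apply] using this) (e.symm x) (e.symm y)
      simpa only [e.apply_symm_apply] using this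
    · obtain ⟨a, b, d, g, hh⟩ := h'.cfg
      refine ⟨e a, e b, e d, e g, ?_⟩
      simpa only [e.symm_apply_apply, ne_eq, e.apply_eq_iff_eq] using hh

/-- a closed set of half size gives a homomorphism onto two points -/
theorem Sk.half {α : Type} [Fintype α] [DecidableEq α] {q : α → α → α → α} (sk : Sk q)
    (W : Finset α) (hW : 2 * W.card = Fintype.card α)
    (hcl : ∀ x ∈ W, ∀ y ∈ W, ∀ z ∈ W, q x y z ∈ W) (x y z : α) :
    decide (q x y z ∈ W) = ((decide (x ∈ W) ^^ decide (y ∈ W)) ^^ decide (z ∈ W)) := by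
  have h2 : ∀ x ∈ W, ∀ y ∈ W, ∀ z ∉ W, q x y z ∉ W := fun x hx y hy z hz hq =>
    hz (by rw [← sk.inv x y z]; exact hcl x hx y hy _ hq)
  have h1 : ∀ x ∈ W, ∀ y ∉ W, ∀ z ∉ W, q x y z ∈ W := fun x hx y hy z hz => by
    have hi : Function.Injective (q x y) := Function.LeftInverse.injective (sk.inv x y)
    have him : W.image (q x y) = Wᶜ := by
      refine eq_of_subset_of_card_le (fun w hw => ?_) ?_
      · obtain ⟨u, hu, rfl⟩ := mem_image.1 hw
        rw [mem_compl, sk.s2]
        exact h2 x hx u hu y hy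
      · rw [card_image_of_injective _ hi, card_compl]; omega
    obtain ⟨u, hu, rfl⟩ := mem_image.1 (him ▸ mem_compl.2 hz)
    rwa [sk.inv]
  have h0 : ∀ x ∉ W, ∀ y ∉ W, ∀ z ∉ W, q x y z ∉ W := fun x hx y hy z hz hq => by
    have := h1 _ hq x hx y hy
    rw [sk.s1, sk.s2, sk.inv] at this
    exact hz this
  by_cases hx : x ∈ W <;> by_cases hy : y ∈ W <;> by_cases hz : z ∈ W
  · simp [hx, hy, hz, hcl x hx y hy z hz]
  · simp [hx, hy, hz, h2 x hx y hy z hz]
  · have := h2 x hx z hz y hy
    rw [← sk.s2] at this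
    simp [hx, hy, hz, this]
  · simp [hx, hy, hz, h1 x hx y hy z hz]
  · have := h2 y hy z hz x hx
    rw [← sk.s2, ← sk.s1] at this
    simp [hx, hy, hz, this]
  · have := h1 y hy x hx z hz
    rw [← sk.s1] at this
    simp [hx, hy, hz, this]
  · have := h1 z hz x hx y hy
    rw [← sk.s1, ← sk.s2] at this
    simp [hx, hy, hz, this]
  · simp [hx, hy, hz, h0 x hx y hy z hz]

theorem Sk.ne {α : Type} {q : α → α → α → α} (sk : Sk q) {x y z : α} (hxy : x ≠ y) (hxz : x ≠ z)
    (hyz : y ≠ z) : q x y z ≠ x ∧ q x y z ≠ y ∧ q x y z ≠ z := by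
  refine ⟨fun h => hyz ?_, fun h => hxz ?_, fun h => hxy ?_⟩
  · rw [← sk.inv x y z, h, sk.idem2]
  · rw [← sk.inv x y z, h, sk.idem3]
  · rw [← sk.inv x z y, ← sk.s2 x y z, h, sk.idem3]

theorem Sk.card4 {α : Type} [DecidableEq α] {q : α → α → α → α} (sk : Sk q) {x y z : α}
    (hxy : x ≠ y) (hxz : x ≠ z) (hyz : y ≠ z) : ({q x y z, x, y, z} : Finset α).card = 4 := by
  obtain ⟨h1, h2, h3⟩ := sk.ne hxy hxz hyz
  rw [card_insert_of_notMem (by simp [h1, h2, h3]), card_eq_three.2 ⟨x, y, z, hxy, hxz, hyz, rfl⟩]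

/-- extremal systems without a subsystem of half size -/
theorem wild (n : ℕ) (hn : 4 ≤ n) : ∃ B : Finset (Finset (Fin (2 ^ n))),
    (∀ b ∈ B, b.card = 4) ∧
    (∀ T : Finset (Fin (2 ^ n)), T.card = 3 → ∃! b, b ∈ B ∧ T ⊆ b) ∧
    (∃ c : Fin (2 ^ n) → Fin (n + 1), Function.Surjective c ∧
      ∀ b ∈ B, ∃ x ∈ b, ∃ y ∈ b, x ≠ y ∧ c x = c y) ∧
    ∀ W : Finset (Fin (2 ^ n)), W.card = 2 ^ (n - 1) → ∃ b ∈ B, (b ∩ W).card = 3 := by
  obtain ⟨m, rfl⟩ : ∃ m, n = m + 4 := ⟨n - 4, by omega⟩
  obtain ⟨q, c, h⟩ := gd_all m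
  have sk := h.sk
  refine ⟨univ.filter fun b => ∃ x y z, x ≠ y ∧ x ≠ z ∧ y ≠ z ∧ b = {q x y z, x, y, z},
    ?_, ?_, ⟨fun x => ⟨c x, h.lt x⟩, fun i => ?_, ?_⟩, ?_⟩
  · intro b hb
    obtain ⟨x, y, z, hxy, hxz, hyz, rfl⟩ := (mem_filter.1 hb).2
    exact sk.card4 hxy hxz hyz
  · intro T hT
    obtain ⟨x, y, z, hxy, hxz, hyz, rfl⟩ := card_eq_three.1 hT
    refine ⟨{q x y z, x, y, z}, ⟨mem_filter.2 ⟨mem_univ _, x, y, z, hxy, hxz, hyz, rfl⟩,
      subset_insert _ _⟩, ?_⟩
    rintro b ⟨hb, hT⟩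
    obtain ⟨x', y', z', hxy', hxz', hyz', rfl⟩ := (mem_filter.1 hb).2
    have hq : q x y z ∈ ({q x' y' z', x', y', z'} : Finset _) := by
      have hx := hT (mem_insert_self x _)
      have hy := hT (mem_insert_of_mem (mem_insert_self y _))
      have hz := hT (mem_insert_of_mem (mem_insert_of_mem (mem_singleton_self z)))
      have a1 := sk.inv x' y' z'
      have a2 : q x' z' (q x' y' z') = y' := by rw [sk.s2 x' y' z', sk.inv]
      have a3 : q y' z' (q x' y' z') = x' := by rw [sk.s1 x' y' z', sk.s2 y' x' z', sk.inv]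
      generalize hw : q x' y' z' = w at *
      have pm : ∀ r s t u, q r s t = u → q r s t = u ∧ q r t s = u ∧ q s r t = u ∧ q s t r = u ∧
          q t r s = u ∧ q t s r = u := fun r s t u hh =>
        ⟨hh, by rw [← sk.s2, hh], by rw [← sk.s1, hh], by rw [← sk.s2, ← sk.s1, hh],
          by rw [← sk.s1, ← sk.s2, hh], by rw [← sk.s1, ← sk.s2, ← sk.s1, hh]⟩
      have b0 := pm _ _ _ _ hw
      have b1 := pm _ _ _ _ a1
      have b2 := pm _ _ _ _ a2
      have b3 := pm _ _ _ _ a3
      simp only [mem_insert, mem_singleton] at hx hy hz ⊢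
      rcases hx with rfl | rfl | rfl | rfl <;> rcases hy with rfl | rfl | rfl | rfl <;>
        rcases hz with rfl | rfl | rfl | rfl <;> first | contradiction | simp [b0, b1, b2, b3]
    symm
    refine eq_of_subset_of_card_le (insert_subset hq hT) ?_
    rw [sk.card4 hxy hxz hyz, sk.card4 hxy' hxz' hyz']
  · obtain ⟨x, hx⟩ := h.sur i i.2
    exact ⟨x, Fin.ext hx⟩
  · intro b hb
    obtain ⟨x, y, z, hxy, hxz, hyz, rfl⟩ := (mem_filter.1 hb).2
    obtain ⟨h1, h2, h3⟩ := sk.ne hxy hxz hyz
    rcases h.col x y z with hc | hc | hc | hc | hc | hc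
    · exact ⟨x, by simp, y, by simp, hxy, Fin.ext hc⟩
    · exact ⟨x, by simp, z, by simp, hxz, Fin.ext hc⟩
    · exact ⟨y, by simp, z, by simp, hyz, Fin.ext hc⟩
    · exact ⟨_, by simp, x, by simp, h1, Fin.ext hc⟩
    · exact ⟨_, by simp, y, by simp, h2, Fin.ext hc⟩
    · exact ⟨_, by simp, z, by simp, h3, Fin.ext hc⟩
  · intro W hW
    by_contra hno
    have hcl : ∀ x ∈ W, ∀ y ∈ W, ∀ z ∈ W, q x y z ∈ W := by
      intro x hx y hy z hz
      by_cases hxy : x = y
      · rwa [hxy, sk.idem]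
      by_cases hxz : x = z
      · rwa [hxz, sk.idem2]
      by_cases hyz : y = z
      · rwa [hyz, sk.idem3]
      by_contra hq
      refine hno ⟨{q x y z, x, y, z}, mem_filter.2 ⟨mem_univ _, x, y, z, hxy, hxz, hyz, rfl⟩, ?_⟩
      rw [insert_inter_of_notMem hq, inter_eq_left.2 (by simp [insert_subset_iff, hx, hy, hz]),
        card_eq_three.2 ⟨x, y, z, hxy, hxz, hyz, rfl⟩]
    have hW' : W.card = 2 ^ (m + 3) := hW
    have h2 : 2 * W.card = Fintype.card (Fin (2 ^ (m + 4))) := by
      rw [hW', Fintype.card_fin, ← pow_succ']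
    have hpos : 0 < W.card := by rw [hW']; positivity
    obtain ⟨x, hx⟩ := card_pos.1 hpos
    obtain ⟨y, hy⟩ : Wᶜ.Nonempty := card_pos.1 (by rw [card_compl]; omega)
    have := h.hom (fun u => decide (u ∈ W)) (sk.half W h2 hcl) x y
    simp [hx, mem_compl.1 hy] at this

end Pool.Agent.MP_741a63_co
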